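import Pool.Agent.Helper70.TW.Link2

/-!
# MP_c7dfba_nt : systems of diagonal forms over nonreal fields

Let `K` be a nonreal field of transcendence degree at most `i` over a real closed field.  Every system
of `r` diagonal forms of degree `d` over `K` in `n ≥ Psi i r i d` variables has a nontrivial zero.
For `i = 1` the condition is `n > 2 r d^2`.
-/

namespace Pool.Agent.Results.MP_c7dfba_nt.DiagonalSystems

universe u v

/-- Every system of `r` diagonal forms of degree `d ≥ 1` in `n ≥ Psi i r i d` variables over a nonreal
field of transcendence degree at most `i` over a real closed field has a nontrivial zero. -/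
theorem result (i r d : ℕ) (hd : 1 ≤ d) (R : Type v) (K : Type u) [Field R] [IsRealClosed R]
    [Field K] [Algebra R K] (htr : Algebra.trdeg R K ≤ (i : Cardinal.{u}))
    (hK : IsSumSq (-1 : K)) (n : ℕ) (hn : Pool.Agent.Helper70.TW.Psi i r i d ≤ n)
    (a : Fin r → Fin n → K) :
    ∃ x : Fin n → K, x ≠ 0 ∧ ∀ l, ∑ j, a l j * x j ^ d = 0 :=
  Pool.Agent.Helper70.TW.Link.diag_all i r d hd R K htr hK n hn a

end Pool.Agent.Results.MP_c7dfba_nt.DiagonalSystems
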