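import Pool.Agent.Helper70.TW.Link2

/-!
# MP_c7dfba_nt : explicit bounds for arbitrary systems of forms, transcendence degree one

Let `K` be a nonreal field of transcendence degree at most one over a real closed field.  Every system
of `r` forms over `K`, of degrees between `1` and `d`, in `n ≥ BdF r d` variables has a nontrivial
common zero.  In particular `BdF 1 4 = 53`: every quartic form over `K` in at least `53` variables has
a nontrivial zero.
-/

namespace Pool.Agent.Results.MP_c7dfba_nt.ExplicitBounds

universe u v

/-- The bound for quartic forms. -/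
theorem bound_quartic : Pool.Agent.Helper70.TW.BdF 1 4 = 53 := by
  unfold Pool.Agent.Helper70.TW.BdF
  norm_num

/-- Every system of `r` forms of degrees in `[1, d]` in `n ≥ BdF r d` variables over a nonreal field
of transcendence degree at most one over a real closed field has a nontrivial common zero. -/
theorem result (r d : ℕ) (R : Type v) (K : Type u) [Field R] [IsRealClosed R]
    [Field K] [Algebra R K] (htr : Algebra.trdeg R K ≤ (1 : Cardinal.{u}))
    (hK : IsSumSq (-1 : K)) (n : ℕ) (hn : Pool.Agent.Helper70.TW.BdF r d ≤ n)
    (f : Fin r → MvPolynomial (Fin n) K)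
    (hf : ∀ j, ∃ e, 1 ≤ e ∧ e ≤ d ∧ (f j).IsHomogeneous e) :
    ∃ x : Fin n → K, x ≠ 0 ∧ ∀ j, MvPolynomial.eval x (f j) = 0 := by
  choose e he1 he2 he3 using hf
  exact (Pool.Agent.Helper70.TW.Link.systems_all R K (by simpa using htr) hK r d).mono hn e f
    (fun j => ⟨he1 j, he2 j⟩) he3

end Pool.Agent.Results.MP_c7dfba_nt.ExplicitBounds
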