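import Pool.Agent.Helper70.Lang.Main
import Pool.Agent.Helper51.Lang.CZero
import Pool.Agent.Helper51.Lang.CAlg
import Pool.Agent.Helper51.Lang.Brauer
import Pool.Agent.Helper51.Lang.FTA
import Pool.Agent.Helper32.Lang.Root

/-!
# MP_c7dfba_nt : finite bounds for systems of forms of arbitrary degrees over nonreal fields

Lang (1953) conjectured that a nonreal field `K` of transcendence degree `i` over a real closed
field `R` is a `C_i`-field. We prove that there is a bound `N = N (i, r, d)` such that any `r`
forms over `K`, of degrees between `1` and `d`, in at least `N` variables have a common nontrivial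
zero. No degree or shape condition is imposed (the known results are for odd degrees, and for
quadratic forms), and the bound does not depend on `K` or `R`.
-/

namespace Pool.Agent.Results.MP_c7dfba_nt.FiniteBounds

universe u v

/-- For all `i, r, d` there is `N` such that for every real closed field `R` and every nonreal
extension `K` of `R` of transcendence degree at most `i`, every system of `r` forms over `K` of
degrees between `1` and `d` in `n ≥ N` variables has a common nontrivial zero. -/
theorem result (i r d : ℕ) :
    ∃ N : ℕ, ∀ (R : Type v) (K : Type u) [Field R] [IsRealClosed R] [Field K] [Algebra R K],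
      Algebra.trdeg R K ≤ (i : Cardinal.{u}) → IsSumSq (-1 : K) →
      ∀ n ≥ N, ∀ f : Fin r → MvPolynomial (Fin n) K,
        (∀ j, ∃ e, 1 ≤ e ∧ e ≤ d ∧ (f j).IsHomogeneous e) →
          ∃ a : Fin n → K, a ≠ 0 ∧ ∀ j, MvPolynomial.eval a (f j) = 0 :=
  Helper70.Lang.final Pool.Agent.Helper51.Lang.FTA.fta
    (Helper32.Lang.root Pool.Agent.Helper51.Lang.FTA.irr2) Pool.Agent.Helper51.Lang.cZero
    Pool.Agent.Helper51.Lang.cAlg Pool.Agent.Helper51.Lang.cSimple
    Pool.Agent.Helper51.Lang.brauer i r d

end Pool.Agent.Results.MP_c7dfba_nt.FiniteBounds
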